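import Pool.Agent.Y89.TU.Stm2
import Pool.Agent.Y89.TS.Dich4

/-!
# Project TV (helper89): the contraction of a correspondence with the Clifford multiplication
-/

set_option autoImplicit false

open Matrix Finset Function

namespace Pool.Agent.Y888.TU

noncomputable section

open Pool.Agent.W544.PG (HS HW mC cspan cx)
open Pool.Agent.Y89.KS
open Pool.Agent.Y89.TS
open Pool.Agent.Y89.TU
open Pool.Agent.Y761.TS (act_mul actL)

section forms
variable {ι : Type} [Fintype ι]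

/-- the product of two forms -/
def tp {k l : ℕ} (f : (Fin k → ι) → ℂ) (g : (Fin l → ι) → ℂ) : (Fin (k + l) → ι) → ℂ :=
  fun J => f (fun s => J (Fin.castAdd l s)) * g (fun s => J (Fin.natAdd k s))

/-- the bilinear form of a matrix -/
def bil (M : Matrix ι ι ℂ) : (Fin 2 → ι) → ℂ := fun J => M (J 0) (J 1)

theorem der_tp (z : Matrix ι ι ℂ) {k l : ℕ} (f : (Fin k → ι) → ℂ) (g : (Fin l → ι) → ℂ)
    (J : Fin (k + l) → ι) :
    der z (tp f g) J = der z f (fun s => J (Fin.castAdd l s)) * g (fun s => J (Fin.natAdd k s)) +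
      f (fun s => J (Fin.castAdd l s)) * der z g (fun s => J (Fin.natAdd k s)) := by
  have e1 : ∀ (j : Fin k) (p : ι), (fun s => update J (Fin.castAdd l j) p (Fin.castAdd l s)) =
      update (fun s => J (Fin.castAdd l s)) j p := by
    intro j p
    funext s
    by_cases hs : s = j
    · subst hs; simp
    · rw [update_of_ne (fun h => hs (Fin.castAdd_injective _ _ h)), update_of_ne hs]
  have e2 : ∀ (j : Fin k) (p : ι), (fun s => update J (Fin.castAdd l j) p (Fin.natAdd k s)) =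
      fun s => J (Fin.natAdd k s) := by
    intro j p
    funext s
    rw [update_of_ne]
    intro h
    have h1 := congrArg Fin.val h
    simp only [Fin.val_natAdd, Fin.val_castAdd] at h1
    omega
  have e3 : ∀ (j : Fin l) (p : ι), (fun s => update J (Fin.natAdd k j) p (Fin.natAdd k s)) =
      update (fun s => J (Fin.natAdd k s)) j p := by
    intro j p
    funext s
    by_cases hs : s = j
    · subst hs; simp
    · rw [update_of_ne (fun h => hs (Fin.natAdd_injective _ _ h)), update_of_ne hs]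
  have e4 : ∀ (j : Fin l) (p : ι), (fun s => update J (Fin.natAdd k j) p (Fin.castAdd l s)) =
      fun s => J (Fin.castAdd l s) := by
    intro j p
    funext s
    rw [update_of_ne]
    intro h
    have h1 := congrArg Fin.val h
    simp only [Fin.val_natAdd, Fin.val_castAdd] at h1
    omega
  unfold der sl tp
  rw [Fin.sum_univ_add, Finset.sum_mul, Finset.mul_sum]
  congr 1
  · refine Finset.sum_congr rfl fun j _ => ?_
    rw [Finset.sum_mul]
    refine Finset.sum_congr rfl fun p _ => ?_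
    rw [e1, e2, mul_assoc]
  · refine Finset.sum_congr rfl fun j _ => ?_
    rw [Finset.mul_sum]
    refine Finset.sum_congr rfl fun p _ => ?_
    rw [e3, e4]
    ring

theorem der_bil (z M : Matrix ι ι ℂ) (J : Fin 2 → ι) :
    der z (bil M) J = (zᵀ * M + M * z) (J 0) (J 1) := by
  unfold bil
  simp only [der, sl, Fin.sum_univ_two, Matrix.add_apply, Matrix.mul_apply,
    Matrix.transpose_apply]
  have e : ∀ (i j : Fin 2) (p), j ≠ i → update J i p j = J j := fun i j p h => update_of_ne h _ _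
  simp only [update_self, e 0 1 _ (by decide), e 1 0 _ (by decide)]
  congr 1
  exact Finset.sum_congr rfl fun p _ => mul_comm _ _

end forms

section main
variable {n w k : ℕ} {V : HS n} {W : HW w} {Γ : Fin n → Matrix (Fin w) (Fin w) ℚ} {c : ℚ}

theorem RC (V : HS n) (i j : Fin n) : ((V.Q⁻¹ i j : ℚ) : ℂ) = (mC V.Q)⁻¹ i j := by
  have h2 : mC V.Q⁻¹ = (mC V.Q)⁻¹ := by
    symm
    apply Matrix.inv_eq_right_inv
    exact mC_Qinv V
  rw [← h2]
  rfl

theorem EC (W : HW w) (Γ : Fin n → Matrix (Fin w) (Fin w) ℚ) (i : Fin n) (a b : Fin w) :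
    (((W.E * Γ i) a b : ℚ) : ℂ) = (mC W.E * mC (Γ i)) a b := by
  rw [← mC_mul']
  rfl

theorem cx_kap (V : HS n) (W : HW w) (Γ : Fin n → Matrix (Fin w) (Fin w) ℚ)
    (C : Fin n → (Fin k → Fin w) → ℚ) :
    cx (kap V W Γ C) = ∑ i, ∑ j, (mC V.Q)⁻¹ i j •
      tp (cx (C i)) (bil (mC W.E * mC (Γ j))) := by
  funext J
  unfold cx kap
  push_cast
  rw [Finset.sum_apply]
  refine Finset.sum_congr rfl fun i _ => ?_
  rw [Finset.sum_apply]
  refine Finset.sum_congr rfl fun j _ => ?_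
  rw [Pi.smul_apply, smul_eq_mul, RC, EC, mul_assoc]
  rfl

theorem kap_der (h : Cliff V W Γ c) (C : Fin n → (Fin k → Fin w) → ℚ)
    (hC : ∀ i, (∑ p, V.x p i • cx (C p)) + der W.y (cx (C i)) = 0) :
    der W.y (cx (kap V W Γ C)) = 0 := by
  obtain ⟨z, hz⟩ : ∃ z, z = W.y := ⟨_, rfl⟩
  obtain ⟨x, hx⟩ : ∃ x, x = V.x := ⟨_, rfl⟩
  have hskew : ∀ i, zᵀ * (mC W.E * mC (Γ i)) + mC W.E * mC (Γ i) * z =
      -∑ k, x k i • (mC W.E * mC (Γ k)) := by
    intro i
    have h1 := h.b (RingEquiv.refl ℂ) (Pi.single i 1)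
    rw [gam_single, gam_apply, Matrix.mulVec_single_one,
      Pool.Agent.Y89.KS.map_refl, Pool.Agent.Y89.KS.map_refl, ← hz, ← hx] at h1
    change z * mC (Γ i) - mC (Γ i) * z = ∑ k, x k i • mC (Γ k) at h1
    have hs : zᵀ * mC W.E + mC W.E * z = 0 := by
      rw [hz]; exact W.skew
    rw [← Matrix.mul_assoc, eq_neg_of_add_eq_zero_left hs, Matrix.neg_mul,
      Matrix.mul_assoc, Matrix.mul_assoc, neg_add_eq_sub, ← Matrix.mul_sub, ← neg_sub, h1,
      Matrix.mul_neg, Matrix.mul_sum]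
    simp only [Matrix.mul_smul]
  rw [← hx, ← hz] at hC
  rw [← hz]
  have h2 : der z (cx (kap V W Γ C)) = ∑ i, ∑ j, (mC V.Q)⁻¹ i j •
      der z (tp (cx (C i)) (bil (mC W.E * mC (Γ j)))) := by
    rw [cx_kap]
    change derL (k + 2) z _ = _
    rw [map_sum]
    refine Finset.sum_congr rfl fun i _ => ?_
    rw [map_sum]
    refine Finset.sum_congr rfl fun j _ => ?_
    rw [map_smul]
    rfl
  rw [h2]
  funext J
  rw [Finset.sum_apply]
  have hxR : x * (mC V.Q)⁻¹ = -((mC V.Q)⁻¹ * xᵀ) := by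
    have h5 : xᵀ * mC V.Q + mC V.Q * x = 0 := by
      rw [hx]; exact V.skew
    have hRQ : (mC V.Q)⁻¹ * mC V.Q = 1 := mul_eq_one_comm.1 (QRV V)
    calc x * (mC V.Q)⁻¹ = (mC V.Q)⁻¹ * (mC V.Q * x) * (mC V.Q)⁻¹ := by
          rw [← Matrix.mul_assoc, hRQ, Matrix.one_mul]
      _ = -((mC V.Q)⁻¹ * xᵀ) := by
          rw [eq_neg_of_add_eq_zero_right h5, Matrix.mul_neg, Matrix.neg_mul, Matrix.mul_assoc,
            Matrix.mul_assoc, QRV, Matrix.mul_one]
  obtain ⟨P, hP⟩ : ∃ P : Fin n → ℂ, P = fun i => cx (C i) (fun s => J (Fin.castAdd 2 s)) :=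
    ⟨_, rfl⟩
  obtain ⟨P', hP'⟩ : ∃ P' : Fin n → ℂ,
      P' = fun i => (mC W.E * mC (Γ i)) (J (Fin.natAdd k 0)) (J (Fin.natAdd k 1)) := ⟨_, rfl⟩
  have h3 : ∀ i, (∑ j, (mC V.Q)⁻¹ i j • der z (tp (cx (C i)) (bil (mC W.E * mC (Γ j))))) J =
      ∑ j, (mC V.Q)⁻¹ i j * (-(∑ k, x k i * P k) * P' j + P i * -(∑ k, x k j * P' k)) := by
    intro i
    rw [Finset.sum_apply]
    refine Finset.sum_congr rfl fun j _ => ?_
    have h6 : der z (cx (C i)) = -∑ p, x p i • cx (C p) := eq_neg_of_add_eq_zero_right (hC i)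
    rw [Pi.smul_apply, smul_eq_mul, der_tp, der_bil, hskew, h6]
    simp only [Matrix.neg_apply, Matrix.sum_apply, Matrix.smul_apply, smul_eq_mul, hP, hP',
      Pi.neg_apply, Finset.sum_apply, Pi.smul_apply, bil]
  simp only [h3]
  have h4 : ∑ i, ∑ j, (mC V.Q)⁻¹ i j * (-(∑ k, x k i * P k) * P' j + P i * -(∑ k, x k j * P' k)) =
      -(P ⬝ᵥ ((x * (mC V.Q)⁻¹ + (mC V.Q)⁻¹ * xᵀ) *ᵥ P')) := by
    have e1 : P ⬝ᵥ ((x * (mC V.Q)⁻¹) *ᵥ P') =
        ∑ i, ∑ j, (mC V.Q)⁻¹ i j * ((∑ k, x k i * P k) * P' j) := by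
      rw [← Matrix.mulVec_mulVec, Matrix.dotProduct_mulVec]
      simp only [dotProduct, Matrix.vecMul, Matrix.mulVec, Finset.mul_sum]
      refine Finset.sum_congr rfl fun i _ => Finset.sum_congr rfl fun j _ => ?_
      have : ∑ k, P k * x k i = ∑ k, x k i * P k :=
        Finset.sum_congr rfl fun k _ => mul_comm _ _
      rw [this]
      ring
    have e2 : P ⬝ᵥ (((mC V.Q)⁻¹ * xᵀ) *ᵥ P') =
        ∑ i, ∑ j, (mC V.Q)⁻¹ i j * (P i * (∑ k, x k j * P' k)) := by
      rw [← Matrix.mulVec_mulVec]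
      simp only [dotProduct, Matrix.mulVec, Matrix.transpose_apply, Finset.mul_sum]
      refine Finset.sum_congr rfl fun i _ => Finset.sum_congr rfl fun j _ =>
        Finset.sum_congr rfl fun k _ => ?_
      ring
    rw [Matrix.add_mulVec, dotProduct_add, e1, e2, eq_neg_iff_add_eq_zero,
      ← Finset.sum_add_distrib, ← Finset.sum_add_distrib]
    refine Finset.sum_eq_zero fun i _ => ?_
    rw [← Finset.sum_add_distrib, ← Finset.sum_add_distrib]
    exact Finset.sum_eq_zero fun j _ => by ring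
  rw [h4, hxR, neg_add_cancel, Matrix.zero_mulVec, dotProduct_zero, neg_zero]
  rfl

theorem kap_inj (h : Cliff V W Γ c) (C : Fin n → (Fin k → Fin w) → ℚ)
    (h0 : kap V W Γ C = 0) : C = 0 := by
  funext l I
  have hw : (w : ℚ) ≠ 0 := by
    have := h.pos
    positivity
  have h1 : ∀ p q, ∑ i, ∑ j, V.Q⁻¹ i j * C i I * (W.E * Γ j) p q = 0 := by
    intro p q
    have h2 := congrFun h0 (Fin.append I ![p, q])
    unfold kap at h2
    simp only [Fin.append_left, Fin.append_right] at h2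
    exact h2
  have h2 : ∀ j, ∑ p, ∑ q, (W.E * Γ j) p q * (Γ l * W.E⁻¹) q p = c * w * V.Q j l := by
    intro j
    have e1 : (W.E * Γ j * (Γ l * W.E⁻¹)).trace =
        ∑ p, ∑ q, (W.E * Γ j) p q * (Γ l * W.E⁻¹) q p := by
      unfold Matrix.trace
      refine Finset.sum_congr rfl fun p _ => ?_
      rw [Matrix.diag_apply, Matrix.mul_apply]
    rw [← e1, ← tr_ΓΓ h j l, Matrix.mul_assoc, Matrix.trace_mul_comm, Matrix.mul_assoc,
      Matrix.mul_assoc, Matrix.nonsing_inv_mul _ (isUnit_iff_ne_zero.2 (dE W)), Matrix.mul_one]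
  have h3 : ∑ p, ∑ q, (∑ i, ∑ j, V.Q⁻¹ i j * C i I * (W.E * Γ j) p q) * (Γ l * W.E⁻¹) q p =
      ∑ i, ∑ j, V.Q⁻¹ i j * C i I * (c * w * V.Q j l) := by
    simp only [← h2, Finset.sum_mul, Finset.mul_sum]
    have e1 : ∀ p : Fin w, ∑ q : Fin w, ∑ i : Fin n, ∑ j : Fin n,
        V.Q⁻¹ i j * C i I * (W.E * Γ j) p q * (Γ l * W.E⁻¹) q p =
        ∑ i : Fin n, ∑ j : Fin n, ∑ q : Fin w,
        V.Q⁻¹ i j * C i I * (W.E * Γ j) p q * (Γ l * W.E⁻¹) q p := by
      intro p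
      rw [Finset.sum_comm]
      refine Finset.sum_congr rfl fun i _ => ?_
      rw [Finset.sum_comm]
    simp only [e1]
    rw [Finset.sum_comm]
    refine Finset.sum_congr rfl fun i _ => ?_
    rw [Finset.sum_comm]
    refine Finset.sum_congr rfl fun j _ => Finset.sum_congr rfl fun p _ =>
      Finset.sum_congr rfl fun q _ => ?_
    ring
  have h4 : ∑ i, ∑ j, V.Q⁻¹ i j * C i I * (c * w * V.Q j l) = c * w * C l I := by
    have e1 : ∀ i, ∑ j, V.Q⁻¹ i j * C i I * (c * w * V.Q j l) =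
        c * w * (C i I * (V.Q⁻¹ * V.Q) i l) := by
      intro i
      rw [Matrix.mul_apply, Finset.mul_sum, Finset.mul_sum]
      refine Finset.sum_congr rfl fun j _ => ?_
      ring
    simp only [e1]
    rw [← Finset.mul_sum, Matrix.nonsing_inv_mul _ (isUnit_iff_ne_zero.2 (dQ V))]
    congr 1
    rw [Finset.sum_eq_single l]
    · rw [Matrix.one_apply_eq, mul_one]
    · intro i _ hi
      rw [Matrix.one_apply_ne hi, mul_zero]
    · intro hl
      exact absurd (Finset.mem_univ l) hl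
  rw [h4] at h3
  simp only [h1, zero_mul, Finset.sum_const_zero] at h3
  have h5 := mul_ne_zero h.ne hw
  rcases mul_eq_zero.1 h3.symm with h6 | h6
  · exact absurd h6 h5
  · exact h6

theorem kap_act (C : Fin n → (Fin k → Fin w) → ℚ) (a' : Matrix (Fin n) (Fin n) ℂ)
    (g : Matrix (Fin w) (Fin w) ℂ) (ε : ℂ) (ha : a' * (mC V.Q)⁻¹ * a'ᵀ = (mC V.Q)⁻¹)
    (hC : ∀ i, act gᵀ (cx (C i)) = ∑ p, a' p i • cx (C p))
    (hΓ : ∀ j, gᵀ * (mC W.E * mC (Γ j)) * g = ε • ∑ p, a' p j • (mC W.E * mC (Γ p))) :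
    act gᵀ (cx (kap V W Γ C)) = ε • cx (kap V W Γ C) := by
  have h2 : act gᵀ (cx (kap V W Γ C)) = ∑ i, ∑ j, (mC V.Q)⁻¹ i j •
      act gᵀ (tp (cx (C i)) (bil (mC W.E * mC (Γ j)))) := by
    rw [cx_kap]
    change actL gᵀ (k + 2) _ = _
    rw [map_sum]
    refine Finset.sum_congr rfl fun i _ => ?_
    rw [map_sum]
    refine Finset.sum_congr rfl fun j _ => ?_
    rw [map_smul]
    rfl
  rw [h2, cx_kap]
  funext J
  obtain ⟨P, hP⟩ : ∃ P : Fin n → ℂ, P = fun i => cx (C i) (fun s => J (Fin.castAdd 2 s)) :=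
    ⟨_, rfl⟩
  obtain ⟨P', hP'⟩ : ∃ P' : Fin n → ℂ,
      P' = fun i => (mC W.E * mC (Γ i)) (J (Fin.natAdd k 0)) (J (Fin.natAdd k 1)) := ⟨_, rfl⟩
  have hl : (∑ i, ∑ j, (mC V.Q)⁻¹ i j • act gᵀ (tp (cx (C i)) (bil (mC W.E * mC (Γ j))))) J =
      ∑ i, ∑ j, (mC V.Q)⁻¹ i j * ((∑ p, a' p i * P p) * (ε * ∑ q, a' q j * P' q)) := by
    rw [Finset.sum_apply]
    refine Finset.sum_congr rfl fun i _ => ?_
    rw [Finset.sum_apply]
    refine Finset.sum_congr rfl fun j _ => ?_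
    rw [Pi.smul_apply, smul_eq_mul]
    have e1 := congrFun (act_mul gᵀ (cx (C i)) (bil (mC W.E * mC (Γ j)))) J
    have e2 : act gᵀ (bil (mC W.E * mC (Γ j))) =
        fun J => (gᵀ * (mC W.E * mC (Γ j)) * g) (J 0) (J 1) := act_bil g _
    rw [hC, e2, hΓ] at e1
    change act gᵀ (tp (cx (C i)) (bil (mC W.E * mC (Γ j)))) J = _ at e1
    rw [e1]
    simp only [Matrix.sum_apply, Matrix.smul_apply, smul_eq_mul, hP, hP', Finset.sum_apply,
      Pi.smul_apply]
  have hr : (ε • ∑ i, ∑ j, (mC V.Q)⁻¹ i j • tp (cx (C i)) (bil (mC W.E * mC (Γ j)))) J =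
      ε * ∑ i, ∑ j, (mC V.Q)⁻¹ i j * (P i * P' j) := by
    rw [Pi.smul_apply, smul_eq_mul, Finset.sum_apply]
    congr 1
    refine Finset.sum_congr rfl fun i _ => ?_
    rw [Finset.sum_apply]
    refine Finset.sum_congr rfl fun j _ => ?_
    rw [Pi.smul_apply, smul_eq_mul, hP, hP']
    rfl
  rw [hl, hr]
  have e1 : ∑ i, ∑ j, (mC V.Q)⁻¹ i j * (P i * P' j) = P ⬝ᵥ ((mC V.Q)⁻¹ *ᵥ P') := by
    simp only [dotProduct, Matrix.mulVec, Finset.mul_sum]
    refine Finset.sum_congr rfl fun i _ => Finset.sum_congr rfl fun j _ => ?_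
    ring
  have e2 : ∑ i, ∑ j, (mC V.Q)⁻¹ i j * ((∑ p, a' p i * P p) * (ε * ∑ q, a' q j * P' q)) =
      ε * ((P ᵥ* a') ⬝ᵥ ((mC V.Q)⁻¹ *ᵥ (a'ᵀ *ᵥ P'))) := by
    simp only [dotProduct, Matrix.mulVec, Matrix.vecMul, Matrix.transpose_apply]
    rw [Finset.mul_sum]
    refine Finset.sum_congr rfl fun i _ => ?_
    rw [Finset.mul_sum, Finset.mul_sum]
    refine Finset.sum_congr rfl fun j _ => ?_
    have e3 : ∑ p, a' p i * P p = ∑ p, P p * a' p i :=
      Finset.sum_congr rfl fun p _ => mul_comm _ _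
    rw [e3]
    ring
  rw [e2, e1, Matrix.mulVec_mulVec, ← Matrix.dotProduct_mulVec, Matrix.mulVec_mulVec,
    ← Matrix.mul_assoc, ha]

theorem t_KAP : S_kap := by
  intro n w k V W Γ c h C hC
  refine ⟨?_, kap_inj h C, fun a' g ε ha hC' hΓ => kap_act C a' g ε ha hC' hΓ⟩
  intro J
  exact congrFun (kap_der h C hC) J

end main

end

end Pool.Agent.Y888.TU
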